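import Pool.Agent.Y404.GccBounds

set_option autoImplicit false

namespace Pool.Agent.Results.MP_a2d8aa_co.CoreBound

open Pool.Agent.Y404.GccSap Pool.Agent.Y404.GccBounds

/-- `S₊(G)`: the real positive semidefinite matrices whose off-diagonal nonzero pattern is exactly
the edge set of `G`; the diagonal is unrestricted. -/
def SPlus {n : ℕ} (G : SimpleGraph (Fin n)) : Set (Matrix (Fin n) (Fin n) ℝ) :=
  {A | A.PosSemidef ∧ ∀ i j : Fin n, i ≠ j → (A i j ≠ 0 ↔ G.Adj i j)}

/-- The positive semidefinite minimum rank `mr₊(G)`. -/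
noncomputable def mrPlus {n : ℕ} (G : SimpleGraph (Fin n)) : ℕ :=
  sInf {k : ℕ | ∃ A ∈ SPlus G, A.rank = k}

theorem mrPlus_le_of_hasSap {n : ℕ} {G : SimpleGraph (Fin n)} {r : ℕ} (h : HasSap G r) :
    mrPlus G ≤ r := by
  obtain ⟨A, h1, h2, _, h4⟩ := h
  have h5 : mrPlus G ≤ A.rank := Nat.sInf_le ⟨A, ⟨h1, h2⟩, rfl⟩
  exact h5.trans h4

open Classical in
/-- If every vertex of the nonempty set `S` has at least `d` neighbours in `S` and every vertex of
the nonempty set `T` has at least `e` neighbours of `Ḡ` in `T`, then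
`mr₊(G) + mr₊(Ḡ) ≤ 2|G| - d - e`. In particular (`S = T =` all vertices)
`mr₊(G) + mr₊(Ḡ) ≤ |G| + 1 + (Δ(G) - δ(G))`, which is at most `|G| + 2` whenever
`Δ(G) ≤ δ(G) + 1`. -/
theorem result :
    (∀ (n : ℕ) (G : SimpleGraph (Fin n)) (S T : Finset (Fin n)) (d e : ℕ),
      S.Nonempty → T.Nonempty →
      (∀ x ∈ S, d ≤ (S.filter fun y => G.Adj x y).card) →
      (∀ x ∈ T, e ≤ (T.filter fun y => Gᶜ.Adj x y).card) →
      mrPlus G + mrPlus Gᶜ + d + e ≤ 2 * n) ∧
    (∀ (n : ℕ), 0 < n → ∀ G : SimpleGraph (Fin n),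
      mrPlus G + mrPlus Gᶜ + G.minDegree ≤ n + 1 + G.maxDegree) := by
  refine ⟨?_, ?_⟩
  · intro n G S T d e hS hT hd he
    obtain ⟨h1, h2⟩ := core_sap (Fin n) G S d hS (by
      intro x hx
      convert hd x hx)
    obtain ⟨h3, h4⟩ := core_sap (Fin n) Gᶜ T e hT (by
      intro x hx
      convert he x hx)
    rw [Fintype.card_fin] at h1 h2 h3 h4
    have e1 := mrPlus_le_of_hasSap h1
    have e2 := mrPlus_le_of_hasSap h3
    omega
  · intro n hn G
    haveI : Nonempty (Fin n) := ⟨⟨0, hn⟩⟩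
    have h1 := mrPlus_le_of_hasSap (sap_delta G)
    have h2 := mrPlus_le_of_hasSap (sap_delta Gᶜ)
    have h3 := @minDegree_compl (Fin n) _ _ G (fun a b => Classical.propDecidable (G.Adj a b))
      (fun a b => Classical.propDecidable (Gᶜ.Adj a b))
    rw [Fintype.card_fin] at h1 h2 h3
    have h4 : G.minDegree < n := by
      have := G.minDegree_lt_card
      rwa [Fintype.card_fin] at this
    have h5 := @SimpleGraph.minDegree_lt_card (Fin n) Gᶜ _
      (fun a b => Classical.propDecidable (Gᶜ.Adj a b)) _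
    rw [Fintype.card_fin] at h5
    omega

end Pool.Agent.Results.MP_a2d8aa_co.CoreBound
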