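import Pool.Agent.Y404.GccBounds

set_option autoImplicit false

namespace Pool.Agent.Results.MP_a2d8aa_co.FourThirds

open Pool.Agent.Y404.GccSap Pool.Agent.Y404.GccBounds

/-- `S₊(G)`: the real positive semidefinite matrices whose off-diagonal nonzero pattern is exactly
the edge set of `G`; the diagonal is unrestricted. -/
def SPlus {n : ℕ} (G : SimpleGraph (Fin n)) : Set (Matrix (Fin n) (Fin n) ℝ) :=
  {A | A.PosSemidef ∧ ∀ i j : Fin n, i ≠ j → (A i j ≠ 0 ↔ G.Adj i j)}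

/-- The positive semidefinite minimum rank `mr₊(G)`. -/
noncomputable def mrPlus {n : ℕ} (G : SimpleGraph (Fin n)) : ℕ :=
  sInf {k : ℕ | ∃ A ∈ SPlus G, A.rank = k}

theorem mrPlus_le_of_hasSap {n : ℕ} {G : SimpleGraph (Fin n)} {r : ℕ} (h : HasSap G r) :
    mrPlus G ≤ r := by
  obtain ⟨A, h1, h2, _, h4⟩ := h
  have h5 : mrPlus G ≤ A.rank := Nat.sInf_le ⟨A, ⟨h1, h2⟩, rfl⟩
  exact h5.trans h4

theorem two_mrPlus {n : ℕ} (G : SimpleGraph (Fin n)) :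
    2 * mrPlus G + mrPlus Gᶜ ≤ 2 * n + 1 := by
  obtain ⟨a, h0, h1, h2⟩ := sap_pair G
  rw [Fintype.card_fin] at h0 h1
  have e1 := mrPlus_le_of_hasSap h1
  have e2 := mrPlus_le_of_hasSap h2
  omega

/-- `2 mr₊(G) + mr₊(Ḡ) ≤ 2|G| + 1` and hence `mr₊(G) + mr₊(Ḡ) ≤ (4|G| + 2)/3` for every
graph. -/
theorem result (n : ℕ) (G : SimpleGraph (Fin n)) :
    2 * mrPlus G + mrPlus Gᶜ ≤ 2 * n + 1 ∧ 3 * (mrPlus G + mrPlus Gᶜ) ≤ 4 * n + 2 := by
  have h1 := two_mrPlus G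
  have h2 := two_mrPlus Gᶜ
  rw [compl_compl] at h2
  exact ⟨h1, by omega⟩

end Pool.Agent.Results.MP_a2d8aa_co.FourThirds
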